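import Pool.Agent.K3h88.VR.Stm2

/-!
# AMPC: amplification of colourings with several colours (helper79 for helper88, MP_bc06f7_co)
-/

set_option autoImplicit false

namespace Pool.Agent.K3h79.VR

open Pool.Agent.K3h88.VR

/-- a subspace of given smaller dimension -/
theorem exists_sub {m : ℕ} (V : Submodule (ZMod 2) (E m)) (r : ℕ)
    (h : r ≤ Module.finrank (ZMod 2) V) :
    ∃ W : Submodule (ZMod 2) (E m), W ≤ V ∧ Module.finrank (ZMod 2) W = r := by
  obtain ⟨f, hf⟩ := exists_linearIndependent_of_le_finrank (R := ZMod 2) (M := V) h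
  have hf' : LinearIndependent (ZMod 2) (fun i => (f i : E m)) :=
    hf.map' V.subtype (Submodule.ker_subtype V)
  refine ⟨Submodule.span (ZMod 2) (Set.range fun i => (f i : E m)), ?_, ?_⟩
  · rw [Submodule.span_le]
    rintro _ ⟨i, rfl⟩
    exact (f i).2
  · rw [finrank_span_eq_card hf', Fintype.card_fin]

/-- an injective image of the same dimension -/
theorem finrank_map {n m : ℕ} (φ : E n →ₗ[ZMod 2] E m) (V : Submodule (ZMod 2) (E n))
    (h : ∀ v ∈ V, v ≠ 0 → φ v ≠ 0) :
    Module.finrank (ZMod 2) (V.map φ) = Module.finrank (ZMod 2) V := by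
  have h1 : Function.Injective (φ.domRestrict V) := by
    rw [injective_iff_map_eq_zero]
    intro v hv
    by_contra h0
    exact h v v.2 (fun h2 => h0 (Subtype.ext h2)) hv
  rw [← LinearMap.range_domRestrict, LinearMap.finrank_range_of_inj h1]

theorem t_AMPC : S_AMPC := by
  classical
  intro n m d ρ k s Φ hs hR hV
  unfold Ramsey at hR
  push Not at hR
  obtain ⟨c, hc1, hc2⟩ := hR
  intro hR'
  -- the colouring
  let S : E n → Fin k → Prop := fun x i => Φ i x ≠ 0 ∧ (c (Φ i x)).val + 1 < s
  let t : E n → ℕ := fun x => if h : ∃ i, S x i then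
    (Classical.choose h).val * (s - 1) + (c (Φ (Classical.choose h) x)).val else k * (s - 1)
  have ht1 : ∀ x, ∀ h : ∃ i, S x i, t x = (Classical.choose h).val * (s - 1) +
      (c (Φ (Classical.choose h) x)).val := fun x h => dif_pos h
  have ht2 : ∀ x, (¬ ∃ i, S x i) → t x = k * (s - 1) := fun x h => dif_neg h
  have hlt : ∀ x, (∃ i, S x i) → t x < k * (s - 1) := by
    intro x h
    rw [ht1 x h]
    have h1 := (Classical.choose_spec h).2
    have h2 := (Classical.choose h).isLt
    have h3 : ((Classical.choose h).val + 1) * (s - 1) ≤ k * (s - 1) := Nat.mul_le_mul_right _ h2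
    rw [add_mul, one_mul] at h3
    omega
  have hle : ∀ x, t x < k * (s - 1) + 1 := by
    intro x
    by_cases h : ∃ i, S x i
    · have := hlt x h
      omega
    · rw [ht2 x h]
      omega
  rcases hR' (fun x => ⟨t x, hle x⟩) with ⟨i, hi, V, hVd, hVc⟩ | ⟨i, hi, V, hVd, hVc⟩
  · -- a triangle in one of the first colours
    have key : ∀ v ∈ V, v ≠ 0 → ∃ j : Fin k, S v j ∧ j.val = i.val / (s - 1) ∧
        (c (Φ j v)).val = i.val % (s - 1) := by
      intro v hv hv0
      have h1 : t v = i.val := congrArg Fin.val (hVc v hv hv0)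
      have h2 : ∃ j, S v j := by
        by_contra h
        rw [ht2 v h] at h1
        omega
      have h3 := Classical.choose_spec h2
      refine ⟨Classical.choose h2, h3, ?_, ?_⟩
      · rw [← h1, ht1 v h2, mul_comm, Nat.mul_add_div (by omega),
          Nat.div_eq_of_lt (by have := h3.2; omega), add_zero]
      · rw [← h1, ht1 v h2, mul_comm, Nat.mul_add_mod,
          Nat.mod_eq_of_lt (by have := h3.2; omega)]
    obtain ⟨v0, hv0, hv00⟩ : ∃ v ∈ V, v ≠ 0 := by
      by_contra h
      push Not at h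
      have : V = ⊥ := (Submodule.eq_bot_iff V).2 h
      rw [this, finrank_bot] at hVd
      omega
    obtain ⟨j, hj, hj1, hj2⟩ := key v0 hv0 hv00
    have key2 : ∀ v ∈ V, v ≠ 0 → Φ j v ≠ 0 ∧ (c (Φ j v)).val = i.val % (s - 1) := by
      intro v hv hv'
      obtain ⟨j', h1, h2, h3⟩ := key v hv hv'
      have : j' = j := Fin.ext (h2.trans hj1.symm)
      subst this
      exact ⟨h1.1, h3⟩
    have h4 := finrank_map (Φ j) V fun v hv hv' => (key2 v hv hv').1
    have h5 : i.val % (s - 1) < s - 1 := Nat.mod_lt _ (by omega)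
    obtain ⟨w, hw, hw0, hw1⟩ := hc1 ⟨i.val % (s - 1), by omega⟩ (by
      show i.val % (s - 1) + 1 < s
      omega) (V.map (Φ j)) (h4.trans hVd)
    obtain ⟨v, hv, rfl⟩ := Submodule.mem_map.1 hw
    apply hw1
    apply Fin.ext
    exact (key2 v hv (fun h => hw0 (by rw [h, map_zero]))).2
  · -- a subspace in the last colour
    obtain ⟨j, hj⟩ := hV V hVd
    obtain ⟨W, hW, hWd⟩ := exists_sub (V.map (Φ j)) (ρ + 1) hj
    obtain ⟨w, hw, hw0, hw1⟩ := hc2 ⟨s - 1, by omega⟩ (by
      show s - 1 + 1 = s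
      omega) W hWd
    obtain ⟨v, hv, hvw⟩ := Submodule.mem_map.1 (hW hw)
    have hv0 : v ≠ 0 := fun h => hw0 (by rw [← hvw, h, map_zero])
    have h1 : t v = i.val := congrArg Fin.val (hVc v hv hv0)
    have h2 : ¬ ∃ j, S v j := fun h => by
      have := hlt v h
      omega
    apply hw1
    apply Fin.ext
    show (c w).val = s - 1
    have h3 : ¬ (c w).val + 1 < s := fun h => h2 ⟨j, by rw [hvw]; exact hw0, by rw [hvw]; exact h⟩
    have := (c w).isLt
    omega

end Pool.Agent.K3h79.VR

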